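import Pool.Agent.H59.L.S8.H176.DT.Stm

/-!
# DT-TR: the transcendental step
-/

set_option autoImplicit false
set_option linter.unusedVariables false
set_option linter.unusedSectionVars false

universe u

namespace Pool.Agent.Y319.DT

open Pool.Agent.W418.LU2 Pool.Agent.H176.DT IsLocalRing Polynomial

/-! ### reindexing -/

section reindex

variable {ι κ : Type} [Fintype ι] [Fintype κ]

lemma indN_reindex {B : Type u} [CommRing B] [IsLocalRing B] {z : ι → B} (hz : IndN z)
    (q : κ ≃ ι) : IndN (fun k => z (q k)) := by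
  intro c hc hs k
  have h1 : ∑ i, c (q.symm i) * z i = ∑ k, c k * z (q k) := by
    rw [← q.sum_comp]
    simp
  have h := hz (fun i => c (q.symm i)) (fun i hi => hc (q.symm i) (by
    change z (q (q.symm i)) ∉ _
    rw [Equiv.apply_symm_apply]; exact hi)) (by rw [h1]; exact hs) (q k)
  simpa using h

variable {F : Type u} [Field F] {A P : Subring F}

lemma mo_reindex (x : ι → F) (δ : ι → ℤ) (q : κ ≃ ι) :
    mo (fun k => x (q k)) (fun k => δ (q k)) = mo x δ :=
  q.prod_comp (fun i => x i ^ δ i)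

lemma regP_reindex {x : ι → F} (h : RegP A P x) (q : κ ≃ ι) : RegP A P (fun k => x (q k)) :=
  ⟨h.PA, fun k => h.ne _, fun k => h.mem _, h.reg, h.inv,
    @indN_reindex ι κ _ _ P _ h.reg.toIsLocalRing _ h.ind q⟩

lemma pmon_reindex {x : ι → F} {g : F} (hg : PMon P x g) (q : κ ≃ ι) :
    PMon P (fun k => x (q k)) g := by
  obtain ⟨u, u0, u1, u2, δ, rfl⟩ := hg
  exact ⟨u, u0, u1, u2, fun k => δ (q k), by rw [mo_reindex]⟩

end reindex

/-! ### monomials and denominators -/

section mon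

variable {F : Type u} [Field F] {ι : Type} [Fintype ι] {P A' : Subring F} {x : ι → F}

/-- the monomials -/
def Nm (x : ι → F) (hx : ∀ i, x i ≠ 0) : Submonoid F where
  carrier := Set.range (mo x)
  mul_mem' := by
    rintro _ _ ⟨γ, rfl⟩ ⟨γ', rfl⟩
    exact ⟨γ + γ', mo_add hx γ γ'⟩
  one_mem' := ⟨0, mo_zero x⟩

lemma Nm_mo (V : ValuationSubring F) (x : ι → F) (hx : ∀ i, x i ≠ 0) :
    Mo V.toSubring (Nm x hx) where
  ne := by rintro _ ⟨γ, rfl⟩; exact mo_ne_zero hx γ
  inv := by rintro _ ⟨γ, rfl⟩; exact ⟨-γ, mo_neg x γ⟩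
  cmp := fun n _ => V.mem_or_inv_mem n

lemma pmon_ne (hx : ∀ i, x i ≠ 0) {g : F} (h : PMon P x g) : g ≠ 0 := by
  obtain ⟨u, u0, -, -, δ, rfl⟩ := h
  exact mul_ne_zero u0 (mo_ne_zero hx δ)

lemma pmon_prod {κ : Type*} (hx : ∀ i, x i ≠ 0) (s : Finset κ)
    {g : κ → F} (hg : ∀ i ∈ s, PMon P x (g i)) : PMon P x (∏ i ∈ s, g i) := by
  classical
  induction s using Finset.induction_on with
  | empty => simpa using PMon.one
  | insert a s ha ih =>
    rw [Finset.prod_insert ha]
    exact (hg a (Finset.mem_insert_self _ _)).mul hx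
      (ih fun i hi => hg i (Finset.mem_insert_of_mem hi))

/-- `z` has a denominator -/
def Dn (A' P : Subring F) (x : ι → F) (z : F) : Prop :=
  ∃ b ∈ A', PMon P x b ∧ b * z ∈ A'

lemma dn_zpow_aux (hx : ∀ i, x i ≠ 0) {z : F} (hz : Dn A' P x z) (n : ℕ) :
    Dn A' P x (z ^ n) := by
  induction n with
  | zero => exact ⟨1, A'.one_mem, PMon.one, by rw [pow_zero, mul_one]; exact A'.one_mem⟩
  | succ n ih =>
    obtain ⟨b, hb, hb1, hb2⟩ := ih
    obtain ⟨c, hc, hc1, hc2⟩ := hz
    refine ⟨b * c, A'.mul_mem hb hc, hb1.mul hx hc1, ?_⟩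
    rw [pow_succ, mul_mul_mul_comm]
    exact A'.mul_mem hb2 hc2

lemma dn_inv (hx : ∀ i, x i ≠ 0) {z : F} (hz : Dn A' P x z) (hm : PMon P x z) :
    Dn A' P x z⁻¹ := by
  obtain ⟨b, hb, hb1, hb2⟩ := hz
  refine ⟨b * z, hb2, hb1.mul hx hm, ?_⟩
  rw [mul_assoc, mul_inv_cancel₀ (pmon_ne hx hm), mul_one]
  exact hb

lemma dn_zpow (hx : ∀ i, x i ≠ 0) {z : F} (hz : Dn A' P x z) (hm : PMon P x z) (n : ℤ) :
    Dn A' P x (z ^ n) := by
  rcases n with n | n
  · rw [Int.ofNat_eq_natCast, zpow_natCast]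
    exact dn_zpow_aux hx hz n
  · rw [zpow_negSucc]
    exact dn_inv hx (dn_zpow_aux hx hz _) (hm.pow hx _)

lemma dn_mo (hx : ∀ i, x i ≠ 0) {κ : Type} [Fintype κ] {y : κ → F}
    (hy : ∀ k, Dn A' P x (y k) ∧ PMon P x (y k)) (δ : κ → ℤ) : Dn A' P x (mo y δ) := by
  classical
  unfold mo
  have h1 : ∀ s : Finset κ, Dn A' P x (∏ k ∈ s, y k ^ δ k) := by
    intro s
    induction s using Finset.induction_on with
    | empty =>
      exact ⟨1, A'.one_mem, PMon.one, by rw [Finset.prod_empty, mul_one]; exact A'.one_mem⟩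
    | insert k s hk ih =>
      rw [Finset.prod_insert hk]
      obtain ⟨b, hb, hb1, hb2⟩ := ih
      obtain ⟨c, hc, hc1, hc2⟩ := dn_zpow hx (hy k).1 (hy k).2 (δ k)
      refine ⟨c * b, A'.mul_mem hc hb, hc1.mul hx hb1, ?_⟩
      rw [mul_mul_mul_comm]
      exact A'.mul_mem hc2 hb2
  exact h1 _

lemma common (hx : ∀ i, x i ≠ 0) {Z : Set F} (hZ : Z.Finite) (h : ∀ z ∈ Z, Dn A' P x z) :
    ∃ β ∈ A', PMon P x β ∧ ∀ z ∈ Z, β * z ∈ A' := by
  induction Z, hZ using Set.Finite.induction_on with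
  | empty => exact ⟨1, A'.one_mem, PMon.one, fun z hz => hz.elim⟩
  | @insert a Z ha hZ ih =>
    obtain ⟨b, hb, hb1, hb2⟩ := ih fun z hz => h z (Set.mem_insert_of_mem _ hz)
    obtain ⟨c, hc, hc1, hc2⟩ := h a (Set.mem_insert _ _)
    refine ⟨c * b, A'.mul_mem hc hb, hc1.mul hx hb1, ?_⟩
    rintro z (rfl | hz)
    · have e : c * b * z = b * (c * z) := by ring
      rw [e]
      exact A'.mul_mem hb hc2
    · rw [mul_assoc]
      exact A'.mul_mem hc (hb2 z hz)

end mon

/-! ### denominators in valuation rings -/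

lemma exists_den {E : Type u} [Field E] (W : ValuationSubring E) {S : Set E} (hS : S.Finite) :
    ∃ d : E, d ≠ 0 ∧ ∀ s ∈ S, d * s ∈ W := by
  induction S, hS using Set.Finite.induction_on with
  | empty => exact ⟨1, one_ne_zero, fun s hs => hs.elim⟩
  | @insert a S ha hS ih =>
    obtain ⟨d, hd, hdS⟩ := ih
    by_cases h : d * a ∈ W
    · refine ⟨d, hd, ?_⟩
      rintro s (rfl | hs)
      · exact h
      · exact hdS s hs
    · have ha0 : a ≠ 0 := by
        rintro rfl
        apply h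
        rw [mul_zero]
        exact W.zero_mem
      have h1 : (d * a)⁻¹ ∈ W := (W.mem_or_inv_mem _).resolve_left h
      refine ⟨d * (d * a)⁻¹, mul_ne_zero hd (inv_ne_zero (mul_ne_zero hd ha0)), ?_⟩
      rintro s (rfl | hs)
      · have e : d * (d * s)⁻¹ * s = 1 := by
          field_simp
        rw [e]
        exact W.one_mem
      · have e : d * (d * a)⁻¹ * s = (d * a)⁻¹ * (d * s) := by ring
        rw [e]
        exact W.mul_mem _ _ h1 (hdS s hs)

/-! ### Taylor expansions -/

section tay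

variable {E F : Type u} [Field E] [Field F] [Algebra E F]

lemma aeval_tay (p : E[X]) (a : E) (t : F) :
    aeval t p = ∑ j ∈ Finset.range ((taylor a p).natDegree + 1),
      algebraMap E F ((taylor a p).coeff j) * (t - algebraMap E F a) ^ j := by
  have h1 : aeval (t - algebraMap E F a) (taylor a p) = aeval t p := by
    rw [taylor_apply, aeval_comp]
    congr 1
    simp
  rw [← h1, aeval_eq_sum_range]
  refine Finset.sum_congr rfl fun j _ => ?_
  rw [Algebra.smul_def]

/-- transcendental elements over the image of a ring -/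
lemma trans_img {P : Subring F} (hP : ∀ z ∈ P, z ∈ (algebraMap E F).range) {w : F}
    (hw : Transcendental E w) (g : P[X]) (hg : eval₂ P.subtype w g = 0) : g = 0 := by
  have h1 : g.map P.subtype ∈ Polynomial.lifts (algebraMap E F) := by
    rw [Polynomial.lifts_iff_coeff_lifts]
    intro n
    rw [coeff_map]
    obtain ⟨e, he⟩ := hP _ (g.coeff n).2
    exact ⟨e, he⟩
  obtain ⟨q, hq⟩ := (Polynomial.mem_lifts _).1 h1
  have h2 : aeval w q = 0 := by
    rw [aeval_def, ← eval_map, hq, eval_map, hg]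
  have h3 : q = 0 := by
    by_contra hne
    exact hw ⟨q, hne, h2⟩
  rw [h3, Polynomial.map_zero] at hq
  exact (Polynomial.map_eq_zero_iff Subtype.val_injective).1 hq.symm

end tay

/-! ### the first ring -/

section first

variable {E F : Type u} [Field E] [Field F] [Algebra E F] (V : ValuationSubring F)

lemma mem_VE (e : E) : algebraMap E F e ∈ V.toSubring ↔
    e ∈ (V.comap (algebraMap E F)).toSubring := Iff.rfl

/-- the ring `A[T][w]` -/
abbrev B1 (A : Subring E) (TE : Set E) (w : F) : Subring F :=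
  Subring.closure (insert w
    (((Subring.closure ((A : Set E) ∪ TE)).map (algebraMap E F) : Subring F) : Set F))

/-- the coordinates -/
abbrev x1 {ι : Type} (xE : ι → E) (w : F) : ι ⊕ Unit → F :=
  Sum.elim (fun i => algebraMap E F (xE i)) fun _ => w

variable {A : Subring E} {TE : Set E} {ι : Type} [Fintype ι] {xE : ι → E} {w : F}

lemma reg1 (h : RegP (V.comap (algebraMap E F)).toSubring
    (PP (V.comap (algebraMap E F)) A TE) xE) (hw : w ∈ V) (hw1 : Transcendental E w) :
    RegP V.toSubring (lo V.toSubring (B1 A TE w)) (x1 xE w) := by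
  have h1 := RegP.map (algebraMap E F) (mem_VE V) h
  have hw0 : w ≠ 0 := by
    rintro rfl
    exact hw1 isAlgebraic_zero
  refine h1.trans (loc_V V) ?_ hw hw0 ?_
  · rintro _ ⟨e, he, rfl⟩
    exact h.PA (le_lo _ _ he)
  · intro g hg
    refine trans_img ?_ hw1 g hg
    rintro z ⟨_, ⟨a, ha, rfl⟩, _, ⟨b, hb, rfl⟩, hb0, hbA, rfl⟩
    exact ⟨a * b⁻¹, by rw [map_mul, map_inv₀]⟩

lemma img_le {e : E} (he : e ∈ PP (V.comap (algebraMap E F)) A TE) :
    algebraMap E F e ∈ lo V.toSubring (B1 A TE w) := by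
  have h1 : algebraMap E F e ∈ lo V.toSubring
      ((Subring.closure ((A : Set E) ∪ TE)).map (algebraMap E F)) := by
    rw [lo_map (algebraMap E F) (mem_VE V)]
    exact ⟨e, he, rfl⟩
  exact lo_mono (fun z hz => Subring.subset_closure (Set.mem_insert_of_mem _ hz)) h1

lemma pm1 {e : E} (he : PMon (PP (V.comap (algebraMap E F)) A TE) xE e) :
    PMon (lo V.toSubring (B1 A TE w)) (x1 xE w) (algebraMap E F e) := by
  obtain ⟨u, u0, u1, u2, δ, rfl⟩ := he
  refine ⟨algebraMap E F u, (_root_.map_ne_zero _).2 u0, img_le V u1, ?_, Sum.elim δ 0, ?_⟩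
  · rw [← map_inv₀]
    exact img_le V u2
  · rw [map_mul]
    congr 1
    unfold mo
    rw [map_prod, Fintype.prod_sum_type]
    simp [map_zpow₀]

/-- the dominating polynomial -/
lemma step2 {κ : Type} [Fintype κ] {S0 : Subring F} {N : Submonoid F} {x : κ → F} {T : Set F}
    (hN : Mo V.toSubring N) (hS0 : S0 ≤ V.toSubring) (hS : Stg V.toSubring S0 N T x)
    {f : E[X]} (a : E) (t : F)
    (hτ : PMon (lo V.toSubring (Subring.closure (S0 ∪ T))) x (t - algebraMap E F a))
    (hc : ∀ j, (taylor a f).coeff j ≠ 0 →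
      PMon (lo V.toSubring (Subring.closure (S0 ∪ T))) x (algebraMap E F ((taylor a f).coeff j)))
    (hf0 : aeval t f ≠ 0)
    (hdom : ∀ j, V.valuation (algebraMap E F ((taylor a f).coeff j) *
      (t - algebraMap E F a) ^ j) ≤ V.valuation (aeval t f)) :
    ∃ (T' : Set F) (x' : κ → F), T ⊆ T' ∧ Stg V.toSubring S0 N T' x' ∧ Ref x x' ∧
      PMon (lo V.toSubring (Subring.closure (S0 ∪ T'))) x' (aeval t f) := by
  classical
  have hx := hS.reg.ne
  have hv0 : V.valuation (aeval t f) ≠ 0 := (Valuation.ne_zero_iff _).2 hf0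
  obtain ⟨k, hk⟩ : ∃ k, V.valuation (algebraMap E F ((taylor a f).coeff k) *
      (t - algebraMap E F a) ^ k) = V.valuation (aeval t f) := by
    by_contra hcon
    push Not at hcon
    have h1 : V.valuation (aeval t f) < V.valuation (aeval t f) := by
      conv_lhs => rw [aeval_tay f a t]
      exact Valuation.map_sum_lt _ hv0 fun j _ => lt_of_le_of_ne (hdom j) (hcon j)
    exact lt_irrefl _ h1
  set m : F := algebraMap E F ((taylor a f).coeff k) * (t - algebraMap E F a) ^ k with hm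
  have hm0 : m ≠ 0 := (Valuation.ne_zero_iff V.valuation).1 (by rw [hk]; exact hv0)
  have hck : (taylor a f).coeff k ≠ 0 := by
    intro h
    apply hm0
    rw [hm, h, map_zero, zero_mul]
  have hmP : PMon (lo V.toSubring (Subring.closure (S0 ∪ T))) x m :=
    (hc k hck).mul hx (hτ.pow hx k)
  let G1 : Set F := (fun j : ℕ => algebraMap E F ((taylor a f).coeff j) *
    (t - algebraMap E F a) ^ j * m⁻¹) '' {j | j < (taylor a f).natDegree + 1 ∧
      (taylor a f).coeff j ≠ 0}
  have hG1 : G1.Finite := ((Set.finite_lt_nat _).subset fun j hj => hj.1).image _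
  obtain ⟨T', x', h1, h2, h3, h4⟩ := cmp_all (loc_V V) hN hS0 hG1 hS (by
    rintro _ ⟨j, hj, rfl⟩
    exact ((hc j hj.2).mul hx (hτ.pow hx j)).mul hx hmP.inv)
  refine ⟨T', x', h1, h2, h3, ?_⟩
  have hle : lo V.toSubring (Subring.closure (S0 ∪ T)) ≤
      lo V.toSubring (Subring.closure (S0 ∪ T')) :=
    lo_mono (Subring.closure_mono (Set.union_subset_union_right _ h1))
  have hu : aeval t f * m⁻¹ ∈ lo V.toSubring (Subring.closure (S0 ∪ T')) := by
    rw [aeval_tay f a t, Finset.sum_mul]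
    refine Subring.sum_mem _ fun j hj => ?_
    by_cases hj0 : (taylor a f).coeff j = 0
    · rw [hj0, map_zero, zero_mul, zero_mul]
      exact Subring.zero_mem _
    · refine h4 _ ⟨j, ⟨Finset.mem_range.1 hj, hj0⟩, rfl⟩ ?_
      change algebraMap E F ((taylor a f).coeff j) * (t - algebraMap E F a) ^ j * m⁻¹ ∈ V
      rw [← V.valuation_le_one_iff, map_mul, map_inv₀, hk]
      rw [← div_eq_mul_inv]
      exact (div_le_one₀ (zero_lt_iff.2 hv0)).2 (hdom j)
  have hu0 : aeval t f * m⁻¹ ≠ 0 := mul_ne_zero hf0 (inv_ne_zero hm0)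
  have hu1 : (aeval t f * m⁻¹)⁻¹ ∈ V.toSubring := by
    change (aeval t f * m⁻¹)⁻¹ ∈ V
    rw [← V.valuation_le_one_iff, map_inv₀, map_mul, map_inv₀, hk, mul_inv_cancel₀ hv0, inv_one]
  obtain ⟨v, v0, v1, v2, δ, hδ⟩ := hmP.ref hx h2.reg.ne hle h3
  refine ⟨aeval t f * m⁻¹ * v, mul_ne_zero hu0 v0, Subring.mul_mem _ hu v1, ?_, δ, ?_⟩
  · rw [mul_inv]
    exact Subring.mul_mem _ (h2.reg.inv _ hu hu0 hu1) v2
  · rw [mul_assoc, ← hδ, mul_assoc, inv_mul_cancel₀ hm0, mul_one]

/-- clearing the denominators -/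
lemma step3 {P : Subring F} {a d : E} {t : F} {p : E[X]}
    (hP : ∀ j, algebraMap E F (d * (taylor a p).coeff j) ∈ P) (hwP : w ∈ P)
    (hw : w = t - algebraMap E F a ∨ w = (t - algebraMap E F a)⁻¹)
    (hτ : t - algebraMap E F a ≠ 0) : ∃ r : ℕ, algebraMap E F d * aeval t p * w ^ r ∈ P := by
  rcases hw with hw | hw
  · refine ⟨0, ?_⟩
    rw [pow_zero, mul_one, aeval_tay p a t, Finset.mul_sum]
    refine P.sum_mem fun j _ => ?_
    rw [← mul_assoc, ← map_mul, ← hw]
    exact P.mul_mem (hP j) (P.pow_mem hwP j)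
  · refine ⟨(taylor a p).natDegree, ?_⟩
    rw [aeval_tay p a t, Finset.mul_sum, Finset.sum_mul]
    refine P.sum_mem fun j hj => ?_
    have hj' : j ≤ (taylor a p).natDegree := Nat.lt_succ_iff.1 (Finset.mem_range.1 hj)
    obtain ⟨l, hl⟩ := Nat.exists_eq_add_of_le hj'
    have e : algebraMap E F d * (algebraMap E F ((taylor a p).coeff j) *
        (t - algebraMap E F a) ^ j) * w ^ (taylor a p).natDegree =
        algebraMap E F (d * (taylor a p).coeff j) * w ^ l := by
      rw [hl, pow_add, hw, map_mul, inv_pow, inv_pow]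
      have h1 : (t - algebraMap E F a) ^ j ≠ 0 := pow_ne_zero _ hτ
      calc _ = algebraMap E F d * algebraMap E F ((taylor a p).coeff j) *
          ((t - algebraMap E F a) ^ l)⁻¹ *
          ((t - algebraMap E F a) ^ j * ((t - algebraMap E F a) ^ j)⁻¹) := by ring
        _ = _ := by rw [mul_inv_cancel₀ h1, mul_one]
    rw [e]
    exact P.mul_mem (hP j) (P.pow_mem hwP l)

end first

/-! ### the end of the construction -/

section fin

variable {F : Type u} [Field F] (V : ValuationSubring F)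

/-- from the last comparison to a stage over the model -/
lemma final {κ : Type} [Fintype κ] {B : Subring F} {y : κ → F} {hy : ∀ k, y k ≠ 0}
    (A' : Subring F) {T : Set F} {x : κ → F} (hB : B ≤ V.toSubring)
    (hS : Stg V.toSubring B (Nm y hy) T x)
    (U : Set F) (hU : U.Finite)
    (hBU : B ≤ Subring.closure ((A' : Set F) ∪ (U ∪ T)))
    (hA' : A' ≤ lo V.toSubring (Subring.closure (B ∪ T)))
    (hUB : ∀ u ∈ U, u ∈ lo V.toSubring (Subring.closure (B ∪ T)))
    (hUD : ∀ u ∈ U, Dn A' (lo V.toSubring (Subring.closure (B ∪ T))) x u)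
    (hyD : ∀ k, Dn A' (lo V.toSubring (Subring.closure (B ∪ T))) x (y k) ∧
      PMon (lo V.toSubring (Subring.closure (B ∪ T))) x (y k)) :
    St V A' (U ∪ T) x ∧ PP V A' (U ∪ T) = lo V.toSubring (Subring.closure (B ∪ T)) := by
  have hx := hS.reg.ne
  have hBT : Subring.closure ((B : Set F) ∪ T) ≤ V.toSubring := hS.SA hB
  have hPP : PP V A' (U ∪ T) = lo V.toSubring (Subring.closure (B ∪ T)) := by
    refine lo_eq hBT ?_ ?_
    · rw [Subring.closure_le]
      rintro z (hz | hz)
      · exact hBU hz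
      · exact Subring.subset_closure (Or.inr (Or.inr hz))
    · rw [Subring.closure_le]
      rintro z (hz | hz | hz)
      · exact hA' hz
      · exact hUB z hz
      · exact le_lo _ _ (Subring.subset_closure (Or.inr hz))
  refine ⟨⟨hU.union hS.fin, ?_, ?_⟩, hPP⟩
  · rw [hPP]
    exact hS.reg
  · rw [hPP]
    have hN : ∀ n ∈ Nm y hy, Dn A' (lo V.toSubring (Subring.closure (B ∪ T))) x n := by
      rintro _ ⟨δ, rfl⟩
      exact dn_mo hx hyD δ
    obtain ⟨β, h1, h2, h3⟩ := common (A' := A') hx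
      (Z := (U ∪ T) ∪ Set.range x) ((hU.union hS.fin).union (Set.finite_range x)) (by
      rintro z ((hz | hz) | ⟨i, rfl⟩)
      · exact hUD z hz
      · exact hN z (hS.TN z hz)
      · exact hN _ (hS.xN i))
    exact ⟨β, h1, h2, fun z hz => h3 z (Or.inl hz), fun i => h3 _ (Or.inr ⟨i, rfl⟩)⟩

end fin

/-- **DT-TR.** -/
theorem tr (h1 : S_ref.{u}) (h2 : S_fac.{u}) : S_tr.{u} := by
  intro E F _ _ _ V A hMod hSU t htr hgen htay
  classical
  have ht0 : t ≠ 0 := by
    rintro rfl
    exact htr isAlgebraic_zero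
  have hat : ∀ p : E[X], p ≠ 0 → aeval t p ≠ 0 := fun p hp h => htr ⟨p, hp, h⟩
  obtain ⟨w0, hw0, hw0V⟩ : ∃ w0 : F, (w0 = t ∨ w0 = t⁻¹) ∧ w0 ∈ V := by
    rcases V.mem_or_inv_mem t with h | h
    · exact ⟨t, Or.inl rfl, h⟩
    · exact ⟨t⁻¹, Or.inr rfl, h⟩
  refine ⟨w0, hw0, hw0V, ?_⟩
  intro G hG hG0
  choose num den hden hnd using hgen
  -- the polynomials
  let FF0 : Finset E[X] := insert X (hG.toFinset.image num ∪ hG.toFinset.image den)
  have hXF : (X : E[X]) ∈ FF0 := Finset.mem_insert_self _ _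
  have hnF : ∀ g ∈ G, num g ∈ FF0 := fun g hg => Finset.mem_insert_of_mem
    (Finset.mem_union_left _ (Finset.mem_image_of_mem _ (hG.mem_toFinset.2 hg)))
  have hdF : ∀ g ∈ G, den g ∈ FF0 := fun g hg => Finset.mem_insert_of_mem
    (Finset.mem_union_right _ (Finset.mem_image_of_mem _ (hG.mem_toFinset.2 hg)))
  have hF0 : ∀ p ∈ FF0, p ≠ 0 := by
    intro p hp
    rcases Finset.mem_insert.1 hp with rfl | hp
    · exact X_ne_zero
    · rcases Finset.mem_union.1 hp with hp | hp
      · obtain ⟨g, hg, rfl⟩ := Finset.mem_image.1 hp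
        intro h0
        have h3 := hnd g
        rw [h0, map_zero] at h3
        rcases mul_eq_zero.1 h3 with h4 | h4
        · exact hG0 g (hG.mem_toFinset.1 hg) h4
        · exact hden g h4
      · obtain ⟨g, hg, rfl⟩ := Finset.mem_image.1 hp
        intro h0
        apply hden g
        rw [h0, map_zero]
  obtain ⟨a, ha⟩ := htay (∏ p ∈ FF0, p)
  -- denominators
  have hdex : ∀ p : E[X], ∃ d : E, d ≠ 0 ∧ ∀ j, d * (taylor a p).coeff j ∈
      V.comap (algebraMap E F) := by
    intro p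
    obtain ⟨d, hd, hd1⟩ := exists_den (V.comap (algebraMap E F))
      (S := (taylor a p).coeff '' {j | j < (taylor a p).natDegree + 1})
      ((Set.finite_lt_nat _).image _)
    refine ⟨d, hd, fun j => ?_⟩
    by_cases hj : j < (taylor a p).natDegree + 1
    · exact hd1 _ ⟨j, hj, rfl⟩
    · rw [coeff_eq_zero_of_natDegree_lt (by omega), mul_zero]
      exact (V.comap (algebraMap E F)).zero_mem
  choose d hd0 hdV using hdex
  obtain ⟨a1, ha1, a2, ha2, ha20, ha12⟩ := hMod.2 a
  -- the stage of `E`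
  let GE : Set E := {z | z ≠ 0 ∧ z ∈ (insert a2 (FF0.image d ∪ (FF0.biUnion fun p =>
    (Finset.range ((taylor a p).natDegree + 1)).image fun j => d p * (taylor a p).coeff j) ∪
    (Finset.range ((taylor a (∏ p ∈ FF0, p)).natDegree + 1)).image
      fun j => (taylor a (∏ p ∈ FF0, p)).coeff j) : Finset E)}
  have hGEf : GE.Finite := (Finset.finite_toSet _).subset fun z hz => hz.2
  obtain ⟨TE, n, xE, hSt, hGE⟩ := hSU GE hGEf fun z hz => hz.1
  have hd1 : ∀ p ∈ FF0, d p ∈ GE := fun p hp => ⟨hd0 p, Finset.mem_insert_of_mem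
    (Finset.mem_union_left _ (Finset.mem_union_left _ (Finset.mem_image_of_mem _ hp)))⟩
  have hd2 : ∀ p ∈ FF0, ∀ j, d p * (taylor a p).coeff j ≠ 0 → d p * (taylor a p).coeff j ∈ GE := by
    intro p hp j hj
    refine ⟨hj, Finset.mem_insert_of_mem (Finset.mem_union_left _ (Finset.mem_union_right _
      (Finset.mem_biUnion.2 ⟨p, hp, Finset.mem_image.2 ⟨j, ?_, rfl⟩⟩)))⟩
    rw [Finset.mem_range]
    by_contra hcon
    apply hj
    rw [coeff_eq_zero_of_natDegree_lt (by omega), mul_zero]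
  have hc1 : ∀ j, (taylor a (∏ p ∈ FF0, p)).coeff j ≠ 0 →
      (taylor a (∏ p ∈ FF0, p)).coeff j ∈ GE := by
    intro j hj
    refine ⟨hj, Finset.mem_insert_of_mem (Finset.mem_union_right _
      (Finset.mem_image.2 ⟨j, ?_, rfl⟩))⟩
    rw [Finset.mem_range]
    by_contra hcon
    apply hj
    rw [coeff_eq_zero_of_natDegree_lt (by omega)]
  have ha2G : a2 ∈ GE := ⟨ha20, Finset.mem_insert_self _ _⟩
  -- the element `w`
  have hτtr : Transcendental E (t - algebraMap E F a) := by
    intro h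
    apply htr
    have h3 := h.add (isAlgebraic_algebraMap (A := F) a)
    rwa [sub_add_cancel] at h3
  have hτ0 : t - algebraMap E F a ≠ 0 := by
    intro h
    rw [h] at hτtr
    exact hτtr isAlgebraic_zero
  obtain ⟨w, hw, hwV⟩ : ∃ w : F, (w = t - algebraMap E F a ∨ w = (t - algebraMap E F a)⁻¹) ∧
      w ∈ V := by
    rcases V.mem_or_inv_mem (t - algebraMap E F a) with h | h
    · exact ⟨_, Or.inl rfl, h⟩
    · exact ⟨_, Or.inr rfl, h⟩
  have hwtr : Transcendental E w := by
    rcases hw with rfl | rfl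
    · exact hτtr
    · exact fun h => hτtr (IsAlgebraic.inv_iff.1 h)
  have hR1 := reg1 V hSt.reg hwV hwtr
  have hB1 : B1 A TE w ≤ V.toSubring := fun z hz => hR1.PA (le_lo _ _ hz)
  have hcl : Subring.closure ((B1 A TE w : Set F) ∪ ∅) = B1 A TE w := by
    rw [Set.union_empty, Subring.closure_eq]
  have hS1 : Stg V.toSubring (B1 A TE w) (Nm (x1 xE w) hR1.ne) ∅ (x1 xE w) := by
    refine ⟨Set.finite_empty, fun z hz => hz.elim, fun z hz => hz.elim,
      fun i => ⟨Pi.single i 1, mo_single _ i⟩, ?_⟩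
    rw [hcl]
    exact hR1
  have hwm : PMon (lo V.toSubring (B1 A TE w)) (x1 xE w) w := by
    have h3 : PMon (lo V.toSubring (B1 A TE w)) (x1 xE w) (mo (x1 xE w)
      (Pi.single (Sum.inr ()) 1)) := PMon.of_mo _
    rw [mo_single] at h3
    exact h3
  have hτm : PMon (lo V.toSubring (B1 A TE w)) (x1 xE w) (t - algebraMap E F a) := by
    rcases hw with h | h
    · rw [← h]; exact hwm
    · have h3 := hwm.inv
      rw [h, inv_inv] at h3
      rw [← h] at h3
      exact h3
  have hft : aeval t (∏ p ∈ FF0, p) ≠ 0 := hat _ (Finset.prod_ne_zero_iff.2 hF0)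
  obtain ⟨T2, x2, -, hS2, hRef, hfm⟩ := step2 V (Nm_mo V (x1 xE w) hR1.ne) hB1 hS1 a t
    (by rw [hcl]; exact hτm) (fun j hj => by
      rw [hcl]
      exact pm1 V (hGE _ (hc1 j hj)).1) hft ha
  have hle : lo V.toSubring (B1 A TE w) ≤
      lo V.toSubring (Subring.closure ((B1 A TE w : Set F) ∪ T2)) :=
    lo_mono fun z hz => Subring.subset_closure (Or.inl hz)
  have hup : ∀ z, PMon (lo V.toSubring (B1 A TE w)) (x1 xE w) z →
      PMon (lo V.toSubring (Subring.closure ((B1 A TE w : Set F) ∪ T2))) x2 z :=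
    fun z hz => hz.ref hR1.ne hS2.reg.ne hle hRef
  have hwP : w ∈ lo V.toSubring (B1 A TE w) :=
    le_lo _ _ (Subring.subset_closure (Set.mem_insert _ _))
  have hx2 := hS2.reg.ne
  -- the factors
  have hr : ∀ p : E[X], ∃ r : ℕ, p ∈ FF0 →
      algebraMap E F (d p) * aeval t p * w ^ r ∈ lo V.toSubring (B1 A TE w) := by
    intro p
    by_cases hp : p ∈ FF0
    · obtain ⟨r, hr⟩ := step3 (P := lo V.toSubring (B1 A TE w)) (a := a) (d := d p) (t := t)
        (p := p) (w := w) (fun j => by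
          by_cases h0 : d p * (taylor a p).coeff j = 0
          · rw [h0, map_zero]
            exact Subring.zero_mem _
          · exact img_le V ((hGE _ (hd2 p hp j h0)).2 (hdV p j))) hwP hw hτ0
      exact ⟨r, fun _ => hr⟩
    · exact ⟨0, fun h => absurd h hp⟩
  choose r hr using hr
  have hprod : PMon (lo V.toSubring (Subring.closure ((B1 A TE w : Set F) ∪ T2))) x2
      (∏ p ∈ FF0, (algebraMap E F (d p) * aeval t p * w ^ r p)) := by
    rw [Finset.prod_mul_distrib, Finset.prod_mul_distrib]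
    refine PMon.mul hx2 (PMon.mul hx2 ?_ ?_) ?_
    · exact pmon_prod hx2 _ fun p hp => hup _ (pm1 V (hGE _ (hd1 p hp)).1)
    · rw [← map_prod]
      exact hfm
    · exact pmon_prod hx2 _ fun p hp => (hup _ hwm).pow hx2 _
  have hpm : ∀ p ∈ FF0, PMon (lo V.toSubring (Subring.closure ((B1 A TE w : Set F) ∪ T2))) x2
      (aeval t p) := by
    intro p hp
    have h3 := h2 hS2.reg (algebraMap E F (d p) * aeval t p * w ^ r p)
      (∏ p ∈ FF0.erase p, (algebraMap E F (d p) * aeval t p * w ^ r p)) (hle (hr p hp))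
      (Subring.prod_mem _ fun q hq => hle (hr q (Finset.mem_of_mem_erase hq))) (by
        rw [Finset.mul_prod_erase FF0
          (fun p => algebraMap E F (d p) * aeval t p * w ^ r p) hp]
        exact hprod)
    have h4 : aeval t p = algebraMap E F (d p) * aeval t p * w ^ r p *
        ((algebraMap E F (d p))⁻¹ * (w ^ r p)⁻¹) := by
      have h5 : algebraMap E F (d p) ≠ 0 := (_root_.map_ne_zero _).2 (hd0 p)
      have h6 : w ^ r p ≠ 0 := pow_ne_zero _ (pmon_ne hR1.ne hwm)
      field_simp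
    rw [h4]
    exact h3.mul hx2 ((hup _ (pm1 V (hGE _ (hd1 p hp)).1)).inv.mul hx2
      ((hup _ hwm).pow hx2 _).inv)
  have htm : PMon (lo V.toSubring (Subring.closure ((B1 A TE w : Set F) ∪ T2))) x2 t := by
    have h3 := hpm X hXF
    rwa [aeval_X] at h3
  have hw0m : PMon (lo V.toSubring (Subring.closure ((B1 A TE w : Set F) ∪ T2))) x2 w0 := by
    rcases hw0 with rfl | rfl
    · exact htm
    · exact htm.inv
  have hgm : ∀ g ∈ G, PMon (lo V.toSubring (Subring.closure ((B1 A TE w : Set F) ∪ T2))) x2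
      g := by
    intro g hg
    have h3 : g = aeval t (num g) * (aeval t (den g))⁻¹ := by
      rw [← hnd g, mul_assoc, mul_inv_cancel₀ (hden g), mul_one]
    rw [h3]
    exact (hpm _ (hnF g hg)).mul hx2 (hpm _ (hdF g hg)).inv
  -- the last comparison
  obtain ⟨T3, x3, hT23, hS3, hRef3, hmem⟩ := cmp_all (loc_V V) (Nm_mo V (x1 xE w) hR1.ne) hB1
    (G := insert w0 G) (hG.insert _) hS2 (by
      rintro g (rfl | hg)
      · exact hw0m
      · exact hgm g hg)
  have hx3 := hS3.reg.ne
  have hle3 : lo V.toSubring (Subring.closure ((B1 A TE w : Set F) ∪ T2)) ≤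
      lo V.toSubring (Subring.closure ((B1 A TE w : Set F) ∪ T3)) :=
    lo_mono (Subring.closure_mono (Set.union_subset_union_right _ hT23))
  have hup3 : ∀ z, PMon (lo V.toSubring (Subring.closure ((B1 A TE w : Set F) ∪ T2))) x2 z →
      PMon (lo V.toSubring (Subring.closure ((B1 A TE w : Set F) ∪ T3))) x3 z :=
    fun z hz => hz.ref hx2 hx3 hle3 hRef3
  obtain ⟨β, hβA, hβm, hβT, hβx⟩ := hSt.den
  have hAA' : ∀ e ∈ A, algebraMap E F e ∈
      Subring.closure ((A.map (algebraMap E F) : Set F) ∪ {w0}) :=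
    fun e he => Subring.subset_closure (Or.inl ⟨e, he, rfl⟩)
  have hw0A' : w0 ∈ Subring.closure ((A.map (algebraMap E F) : Set F) ∪ {w0}) :=
    Subring.subset_closure (Or.inr rfl)
  have ha21 : algebraMap E F a2 * algebraMap E F a = algebraMap E F a1 := by
    rw [← map_mul]
    congr 1
    rw [ha12, mul_left_comm, mul_inv_cancel₀ ha20, mul_one]
  have ha2m := hup3 _ (hup _ (pm1 V (hGE _ ha2G).1))
  have hDτ : Dn (Subring.closure ((A.map (algebraMap E F) : Set F) ∪ {w0}))
      (lo V.toSubring (Subring.closure ((B1 A TE w : Set F) ∪ T3))) x3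
      (t - algebraMap E F a) := by
    rcases hw0 with h | h
    · refine ⟨algebraMap E F a2, hAA' _ ha2, ha2m, ?_⟩
      have e1 : algebraMap E F a2 * (t - algebraMap E F a) =
          algebraMap E F a2 * w0 - algebraMap E F a1 := by
        rw [mul_sub, ha21, h]
      rw [e1]
      exact Subring.sub_mem _ (Subring.mul_mem _ (hAA' _ ha2) hw0A') (hAA' _ ha1)
    · refine ⟨w0 * algebraMap E F a2, Subring.mul_mem _ hw0A' (hAA' _ ha2),
        (hup3 _ hw0m).mul hx3 ha2m, ?_⟩
      have e1 : w0 * algebraMap E F a2 * (t - algebraMap E F a) =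
          algebraMap E F a2 - algebraMap E F a1 * w0 := by
        have e2 : w0 * t = 1 := by rw [h, inv_mul_cancel₀ ht0]
        rw [← ha21]
        linear_combination (algebraMap E F a2) * e2
      rw [e1]
      exact Subring.sub_mem _ (hAA' _ ha2) (Subring.mul_mem _ (hAA' _ ha1) hw0A')
  have hDw : Dn (Subring.closure ((A.map (algebraMap E F) : Set F) ∪ {w0}))
      (lo V.toSubring (Subring.closure ((B1 A TE w : Set F) ∪ T3))) x3 w := by
    rcases hw with h | h
    · rw [← h] at hDτ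
      exact hDτ
    · have h3 := dn_inv hx3 hDτ (hup3 _ (hup _ hτm))
      rw [← h] at h3
      exact h3
  have hB3 : B1 A TE w ≤ lo V.toSubring (Subring.closure ((B1 A TE w : Set F) ∪ T3)) :=
    fun z hz => le_lo _ _ (Subring.subset_closure (Or.inl hz))
  have hEB : ∀ e ∈ Subring.closure ((A : Set E) ∪ TE), algebraMap E F e ∈ B1 A TE w :=
    fun e he => Subring.subset_closure (Set.mem_insert_of_mem _ ⟨e, he, rfl⟩)
  obtain ⟨hst, hPP⟩ := final V (Subring.closure ((A.map (algebraMap E F) : Set F) ∪ {w0}))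
    hB1 hS3 (algebraMap E F '' TE ∪ {w}) ((hSt.fin.image _).union (Set.finite_singleton _))
    (by
      rw [Subring.closure_le]
      rintro z (rfl | ⟨e, he, rfl⟩)
      · exact Subring.subset_closure (Or.inr (Or.inl (Or.inr rfl)))
      · have h3 : Subring.closure ((A : Set E) ∪ TE) ≤ (Subring.closure
            (((Subring.closure ((A.map (algebraMap E F) : Set F) ∪ {w0}) : Subring F) : Set F) ∪
              ((algebraMap E F '' TE ∪ {w}) ∪ T3))).comap (algebraMap E F) := by
          rw [Subring.closure_le]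
          rintro e (he | he)
          · exact Subring.subset_closure (Or.inl (hAA' e he))
          · exact Subring.subset_closure (Or.inr (Or.inl (Or.inl ⟨e, he, rfl⟩)))
        exact h3 he)
    (by
      rw [Subring.closure_le]
      rintro z (⟨e, he, rfl⟩ | rfl)
      · exact hB3 (hEB e (Subring.subset_closure (Or.inl he)))
      · exact hmem _ (Set.mem_insert _ _) hw0V)
    (by
      rintro z (⟨e, he, rfl⟩ | rfl)
      · exact hB3 (hEB e (Subring.subset_closure (Or.inr he)))
      · exact hB3 (Subring.subset_closure (Set.mem_insert _ _)))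
    (by
      rintro z (⟨e, he, rfl⟩ | rfl)
      · refine ⟨algebraMap E F β, hAA' _ hβA, hup3 _ (hup _ (pm1 V hβm)), ?_⟩
        rw [← map_mul]
        exact hAA' _ (hβT e he)
      · exact hDw)
    (by
      rintro (i | i)
      · refine ⟨⟨algebraMap E F β, hAA' _ hβA, hup3 _ (hup _ (pm1 V hβm)), ?_⟩, ?_⟩
        · change algebraMap E F β * algebraMap E F (xE i) ∈ _
          rw [← map_mul]
          exact hAA' _ (hβx i)
        · have h3 : PMon (PP (V.comap (algebraMap E F)) A TE) xE (xE i) := by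
            have h4 : PMon (PP (V.comap (algebraMap E F)) A TE) xE (mo xE (Pi.single i 1)) :=
              PMon.of_mo _
            rwa [mo_single] at h4
          exact hup3 _ (hup _ (pm1 V h3))
      · exact ⟨hDw, hup3 _ (hup _ hwm)⟩)
  let q : Fin (Fintype.card (Fin n ⊕ Unit)) ≃ Fin n ⊕ Unit := (Fintype.equivFin _).symm
  refine ⟨_, _, fun k => x3 (q k), ⟨hst.fin, regP_reindex hst.reg q, ?_⟩, ?_⟩
  · obtain ⟨β', h3, h4, h5, h6⟩ := hst.den
    exact ⟨β', h3, pmon_reindex h4 q, h5, fun i => h6 (q i)⟩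
  · intro g hg
    rw [hPP]
    exact ⟨pmon_reindex (hup3 _ (hgm g hg)) q, fun hgV =>
      hmem g (Set.mem_insert_of_mem _ hg) hgV⟩

end Pool.Agent.Y319.DT
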